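import Pool.Agent.H48.PW.TailDef
import Pool.Agent.H85.UP.Defs

/-!
# Plane symmetric solutions, `γ = 1 + a`, `0 ≤ a ≤ 2s` (MP_c15324_an, extension to `γ = 1` and `d = 2`): definitions

Paper: /team-store/h15_gamma1_paper.md. `m` is the exponent of the density `XT a m V` and of the Hölder touching condition. The weight `PhR` is
`PhS` (H48/PW/Defs) times `min(1,|v-w|/r)`; all estimates are uniform in `r ∈ (0,1]`, and `r → 0` at the end.
-/

set_option autoImplicit false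

open MeasureTheory Set Filter Topology Pool.Agent.H25.Kin Pool.Agent.H48.PL Pool.Agent.H48.PI Pool.Agent.H48.PW

namespace Pool.Agent.H15.G1

variable {d : ℕ}

/-- the conditions on the exponents -/
structure GE (s a m : ℝ) : Prop where
  hs : 0 < s
  ha : 0 ≤ a
  ham : a ≤ m
  hm : 2 * s < m
  hm1 : a + m < 1
  hmQ : m / (2 * s) * (1 + m) + a < 2

/-- `φ(y) min(1,|y|/r)`, `φ(y) = y_e |y|^(a-1)` -/
noncomputable def phiR (e : Fin d) (a r : ℝ) (y : Vec d) : ℝ := min 1 (len y / r) * phi e a y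

/-- `min(1,⟨w⟩/⟨v⟩)^4 φ(v-w) min(1,|v-w|/r)` -/
noncomputable def PhR (e : Fin d) (a r : ℝ) (v w : Vec d) : ℝ :=
  min 1 (jb w / jb v) ^ 4 * phiR e a r (v - w)

/-- test functions with a cusp at `v₀`: increments of order `a` (`a = 0`: bounded), and of order `τ` away from `v₀` -/
structure CuspT (τ a m : ℝ) (v₀ : Vec d) (V₁ A : ℝ) (ψ : Vec d → ℝ) : Prop where
  cont : Continuous ψ
  h1 : ∀ w w', |ψ w - ψ w'| ≤ A * (om m V₁ (max (jb w) (jb w')) * len (w - w') ^ a)
  h2 : ∀ w w', w ≠ v₀ → |ψ w - ψ w'| ≤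
    A * (om m V₁ (max (jb w) (jb w')) * (len (w - w') ^ τ * (1 + len (w - v₀) ^ (a - τ))))

/-- bounded test functions with a cusp at `v₀` -/
structure CuspBT (τ a : ℝ) (v₀ : Vec d) (A : ℝ) (ψ : Vec d → ℝ) : Prop where
  cont : Continuous ψ
  h0 : ∀ w, |ψ w| ≤ A
  h2 : ∀ w w', w ≠ v₀ → |ψ w - ψ w'| ≤ A * (len (w - w') ^ τ * (1 + len (w - v₀) ^ (a - τ)))

/-- the increment bound of the weight `ω`: cusps at `u` with density `n(u)`, and a smooth part -/
def CuspW (n ω : Vec d → ℝ) : Prop := ∀ v v', |ω v' - ω v| ≤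
  ∫ u, n u * (min 1 (len (v' - v) / len (v - u)) + min 1 (len (v' - v) / jb v))

end Pool.Agent.H15.G1
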