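import Pool.Agent.H15.G1.Defs
import Pool.Agent.H48.PW.Blk
import Pool.Agent.H15.G1.W.Bas
import Pool.Agent.H15.G1.W.Cusp
import Pool.Agent.H15.G1.W.Cut
import Pool.Agent.H15.G1.W.Osc
import Pool.Agent.H15.G1.L.L2
import Pool.Agent.H71.PY.Tail
import Pool.Agent.H87.PZ.Fin
import Pool.Agent.H67.NZ.OpZ

/-!
# Module Blk: the interfaces of the blocks (extension to `γ = 1`)

Block T (`tail_g`), blocks H, R (`err_cg`, `err_rg`), block O (`op_g`), block W (`PhR_*`), block L (`l2_op`).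
-/

set_option autoImplicit false

open MeasureTheory Set Filter Topology Pool.Agent.H25.Kin Pool.Agent.H82.BK Pool.Agent.H82.CM
open Pool.Agent.H48.PL Pool.Agent.H48.PI Pool.Agent.H48.PW Pool.Agent.H85.UP
open Pool.Agent.H15.AV (UNice gau)

namespace Pool.Agent.H15.G1

variable {d : ℕ} {s a m β r C Ca cb : ℝ} {b : ℝ → ℝ}

/-- block T: the tail property of the density (for `0 < a`: `tail_all` of H71/PX/Fin) -/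
theorem tail_g (HL : HypL d (1 + a) s b C Ca cb) (E : GE s a m) : TailR d a m b := by
  exact Pool.Agent.H71.PY.tail_g HL E

/-- block H: cusp test functions, `s < τ ≤ 1`, `a ≤ τ` -/
theorem err_cg (HL : HypL d (1 + a) s b C Ca cb) (E : GE s a m) {τ : ℝ} (hτ : s < τ) (hτ1 : τ ≤ 1)
    (haτ : a ≤ τ) (A₁ : ℝ) (hA₁ : 0 ≤ A₁) :
    ∃ K : ℝ, 0 ≤ K ∧ ∀ R₁ : ℝ, 1 ≤ R₁ → ∃ K₁ : ℝ, 0 ≤ K₁ ∧ ∀ ε : ℝ, 0 < ε → ε ≤ 1 →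
      ∀ (Cl : ℕ → ℝ), ∀ η > 0, ∃ δ₀ > 0, ∀ δ ∈ Ioc (0 : ℝ) δ₀, ∀ g : Vec d → ℝ, UNice Cl g →
      ∀ (v₀ : Vec d) (V₁ : ℝ), 1 ≤ V₁ → ∀ ψ : Vec d → ℝ, CuspT τ a m v₀ V₁ A₁ ψ →
      |∫ w, boltzQ (1 + a) b g w * ψ w| ≤ K₁ / ε * Dn (1 + a) b δ g +
        ε * K₁ * om m V₁ R₁ * XT a m 1 g + K * XT a m (max V₁ R₁) g + η := by
  exact Pool.Agent.H87.PZ.err_cg HL E hτ hτ1 haτ A₁ hA₁

/-- block R: renormalized cusp test functions -/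
theorem err_rg (HL : HypL d (1 + a) s b C Ca cb) (E : GE s a m) {τ : ℝ} (hτ : s < τ) (hτ1 : τ ≤ 1)
    (haτ : a ≤ τ) :
    ∃ K : ℝ, 0 ≤ K ∧ ∀ ε : ℝ, 0 < ε → ε ≤ 1 → ∀ (A₁ C₀ : ℝ) (Cl : ℕ → ℝ), 0 < C₀ → ∀ η > 0,
      ∃ δ₀ > 0, ∀ δ ∈ Ioc (0 : ℝ) δ₀, ∀ g : Vec d → ℝ, UNice Cl g →
      ∀ (v₀ : Vec d) (A : ℝ), 0 ≤ A → A ≤ A₁ → ∀ ψ : Vec d → ℝ, CuspBT τ a v₀ A ψ →
      |∫ w, bet' C₀ (g w) * boltzQ (1 + a) b g w * ψ w| ≤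
        A * ((1 / ε + K) * Dn (1 + a) b δ g + ε * K * XT a m 1 g) + η := by
  exact Pool.Agent.H87.PZ.err_rg HL E hτ hτ1 haτ

/-- block O: the nonlinear touching inequality, `0 ≤ a` -/
theorem op_g (HL : HypL d (1 + a) s b C Ca cb) (ha : 0 ≤ a) (h1 : 2 * s < β) (hβ1 : β ≤ 1) {p : ℕ}
    (hp : (d : ℝ) + (1 + a) + 4 ≤ 2 * p) (e : Fin d) :
    ∃ K₀ κ δ₁ : ℝ, 0 ≤ K₀ ∧ 0 < κ ∧ 0 < δ₁ ∧ δ₁ ≤ 1 ∧ ∀ C₀ R : ℝ, 0 < C₀ → 1 ≤ R →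
    ∃ N₁ : ℝ, 0 < N₁ ∧ ∀ g g₁ : Vec d → ℝ, Nice g → (∀ u, 0 ≤ g u) → Measurable g₁ → (∀ u, 0 ≤ g₁ u) →
      (∀ u, g₁ u ≤ g u) → (∀ u, g₁ u ≤ C₀) → (∀ u, R < jb u → g₁ u = 0) →
      ∀ v : Vec d, TouchS δ₁ β p g v → N₁ ≤ g v * (1 + nsq v) ^ p →
      boltzQ (1 + a) b g v ≤ g v * (K₀ * (∫ w, (v e - w e) * PhS e a v w * (g w - g₁ w)) -
        κ * ∫ w, len (v - w) ^ (1 + a) * g₁ w) := by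
  exact Pool.Agent.H67.NZ.op_w0 HL ha h1 hβ1 hp e

/-- block L: the `L²` inequality -/
theorem l2_op (HL : HypL d (1 + a) s b C Ca cb) (ha : 0 ≤ a) (ha1 : a + 2 * s < 1) (e : Fin d) :
    ∃ p : ℕ, (d : ℝ) + (1 + a) + 4 ≤ 2 * p ∧ ∃ K₀ κ δ₁ : ℝ, 0 ≤ K₀ ∧ 0 < κ ∧ 0 < δ₁ ∧
    ∀ C₀ R : ℝ, 0 < C₀ → 1 ≤ R → ∃ N : ℝ, 0 ≤ N ∧
    ∀ g g₁ ω n : Vec d → ℝ, Nice g → (∀ u, 0 ≤ g u) → Measurable g₁ → (∀ u, 0 ≤ g₁ u) →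
      (∀ u, g₁ u ≤ g u) → (∀ u, g₁ u ≤ C₀) → (∀ u, R < jb u → g₁ u = 0) →
      Continuous ω → (∀ v, 1 / 2 ≤ ω v) → (∀ v, ω v ≤ 2) →
      Integrable n → (∀ u, 0 ≤ n u) → ∫ u, n u ≤ δ₁ → CuspW n ω →
      2 * ∫ v, boltzQ (1 + a) b g v * (g v * (1 + nsq v) ^ p * ω v) ≤
        (∫ v, g v ^ 2 * (1 + nsq v) ^ p * ω v *
          (K₀ * (∫ w, (v e - w e) * PhS e a v w * (g w - g₁ w)) - κ * ∫ w, len (v - w) ^ (1 + a) * g₁ w)) +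
        N * ∫ q : Vec d × Vec d, g q.1 * g q.2 * len (q.1 - q.2) ^ (1 + a) := by
  exact l2_op' HL ha ha1 e

end Pool.Agent.H15.G1
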