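import Pool.Agent.H15.G1.LDefs

/-!
# Module InOut: choice of the parameters, the in-type and out-type bounds ((L3), (L4) of /team-store/h15_gamma1_paper.md)

In-type, slow partners: `slow_PW` at the small exponent `p₁` (so that `κ` does not depend on `p'`) with `P = δ₁ mm`; for `h ⟂ m`, `y = v + h`,
`T_(2p')(v+h) ≤ T_(p₁)(v+h) (1 + δ₁ mm)`. The exceptional part of slow partners does not depend on `θ`, `L`; there `(1+|v|²)/(1+|z|²) ≤ 3/4`.
Out-type: for an exceptional pair `1+|v'|² ≤ (8/θ) (1-x) (1+|v|²)`.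
-/

set_option autoImplicit false

open MeasureTheory Set Filter Topology Pool.Agent.H25.Kin Pool.Agent.H82.BK Pool.Agent.H82.CM
open Pool.Agent.H48.PL Pool.Agent.H48.PI Pool.Agent.H48.PW Pool.Agent.H82.NT Pool.Agent.H67.NW
open scoped ENNReal

namespace Pool.Agent.H15.G1

variable {d : ℕ} {γ s C Ca cb : ℝ} {b : ℝ → ℝ}

/-- the in-type and out-type bounds -/
structure InOut (d : ℕ) (γ s : ℝ) (b : ℝ → ℝ) (P : Lp) (ε : ℝ) : Prop where
  slow : ∀ v m : Vec d, m ≠ 0 → SlowR P.δ P.a₀ v (v - m) →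
    GMg γ b ε (Tb (2 * P.p') 1 v) (RegS P.θ P.L v) v m + GEg γ b ε (Tb P.p' 1 v) (RegS P.θ P.L v) v m +
      ENNReal.ofReal (3 / 4 * P.κ) ≤ BB b ε (dir m)
  med2 : ∀ v m : Vec d, m ≠ 0 → MedR P.δ P.a₀ P.L' v (v - m) →
    GMg γ b ε (Tb (2 * P.p') 1 v) (RegS P.θ P.L v) v m + GEg γ b ε (Tb P.p' 1 v) (RegS P.θ P.L v) v m ≤
      BB b ε (dir m) + ENNReal.ofReal P.K
  med1 : ∀ v m : Vec d, m ≠ 0 → MedR P.δ P.a₀ P.L' v (v - m) →
    GMg γ b ε (TbA P v m) (RegS P.θ P.L v) v m + GEg γ b ε (Tb P.p' 1 v) (RegS P.θ P.L v) v m +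
      ENNReal.ofReal P.K₃ ≤ BB b ε (dir m)
  fast : ∀ v m : Vec d, m ≠ 0 → FastR P v (v - m) →
    GMg γ b ε (Tb (2 * P.p') 1 v) (RegS P.θ P.L v) v m + GEg γ b ε (Tb P.p' 1 v) (RegS P.θ P.L v) v m +
      ENNReal.ofReal (P.K₃ + P.c₅ * mF P s ε v (v - m)) ≤ BB b ε (dir m)
  out : ∀ v z : Vec d, v ≠ z → ThD b ε P v z ≤ ENNReal.ofReal P.KD
  outS : ∀ v z : Vec d, v ≠ z → SlowR P.δ P.a₀ v z → ThD b ε P v z ≤ ENNReal.ofReal (P.κ / 16)
  outF : ∀ v z : Vec d, v ≠ z → FastR P v z → ThD b ε P v z = 0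

/-! ### out-type -/

private lemma io_pos (v : Vec d) : 0 < 1 + nsq v := by
  have := sq_nonneg' v
  linarith

/-- `∫ bt(x) (1-x) dσ` -/
private lemma io_ang (H : Hyp d γ s b C Ca) (ε : ℝ) {z v : Vec d} (hzv : z ≠ v) {K : ℝ}
    (hK : 0 ≤ K) : ∫⁻ σ, ENNReal.ofReal (bt b ε (cosTh z v σ) * (K * (1 - cosTh z v σ))) ∂(surf d) ≤
      ENNReal.ofReal (K * (2 * C * Ca)) := by
  obtain ⟨hCa, hA⟩ := H.an
  obtain ⟨hi, hb⟩ := hA z v hzv 1 one_pos
  have hC0 := H.bd.1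
  rw [Real.one_rpow, mul_one] at hb
  have h1 : ∫⁻ σ, ENNReal.ofReal (bt b ε (cosTh z v σ) * (K * (1 - cosTh z v σ))) ∂(surf d) ≤
      ∫⁻ σ, ENNReal.ofReal (K * (2 * C) * aw (((d : ℝ) - 1) / 2 + s) 1 z v σ) ∂(surf d) := by
    apply lintegral_mono_ae
    filter_upwards [surf_ae] with σ hσ
    refine ENNReal.ofReal_le_ofReal ?_
    have hx1 := one_sub_cosTh_nonneg (v := z) (w := v) hσ
    have hx0 := (abs_le.1 (abs_cosTh_le (v := z) (w := v) hσ)).1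
    have haw := aw_nonneg (((d : ℝ) - 1) / 2 + s) 1 (v := z) (w := v) hσ
    set x := cosTh z v σ with hx
    rcases lt_or_ge x 0 with h0 | h0
    · rw [bt_neg h0, zero_mul]
      positivity
    · rcases eq_or_lt_of_le hx1 with h3 | h3
      · rw [← h3, mul_zero, mul_zero]
        positivity
      · have h4 := bt_le (ε := ε) H.bd H.β0 h0 (by linarith)
        unfold aw
        rw [← hx, one_pow, one_mul, min_eq_left (by linarith)]
        calc bt b ε x * (K * (1 - x)) ≤ 2 * C * (1 - x) ^ (-(((d : ℝ) - 1) / 2 + s)) * (K * (1 - x)) :=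
              mul_le_mul_of_nonneg_right h4 (by positivity)
          _ = _ := by ring
  refine h1.trans ?_
  rw [← ofReal_integral_eq_lintegral_ofReal (hi.const_mul _)]
  · refine ENNReal.ofReal_le_ofReal ?_
    rw [integral_const_mul]
    calc K * (2 * C) * ∫ σ, aw (((d : ℝ) - 1) / 2 + s) 1 z v σ ∂(surf d) ≤ K * (2 * C) * Ca :=
          mul_le_mul_of_nonneg_left hb (by positivity)
      _ = _ := by ring
  · filter_upwards [surf_ae] with σ hσ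
    have haw := aw_nonneg (((d : ℝ) - 1) / 2 + s) 1 (v := z) (w := v) hσ
    positivity

private lemma io_nz {z v σ : Vec d} (h : z ≠ v) (hσ : nsq σ = 1) :
    nsq (z - post z v σ) = nsq (z - v) * (1 - cosTh z v σ) / 2 := by
  have e1 : z - post z v σ = (-(len (z - v) / 2)) • (σ - dirk z v) := by
    rw [post_eq, neg_smul]
    abel
  rw [e1, nsq_smul, nsq_sub_dirk h hσ, ← len_sq (z - v)]
  ring

private lemma io_nv {z v σ : Vec d} (h : z ≠ v) (hσ : nsq σ = 1) :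
    nsq (post z v σ - v) = nsq (z - v) * (1 + cosTh z v σ) / 2 := by
  have hl := len_pos (sub_ne_zero.2 h)
  have e1 : post z v σ - v = (1 / 2 : ℝ) • (z - v) + (len (z - v) / 2) • σ := by
    unfold post
    ext i
    simp
    ring
  have e2 : dot σ (z - v) = cosTh z v σ * len (z - v) := by
    unfold cosTh
    field_simp
  rw [e1, nsq_add, nsq_smul, nsq_smul, smul_dot, dot_smul, dot_comm, e2, hσ, ← len_sq (z - v)]
  ring

/-- the geometry of an exceptional pair, `y = v'` -/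
private lemma io_exc {θ L : ℝ} (hθ : 0 < θ) (hθ1 : θ ≤ 1 / 4) (hL : 1 ≤ L) {z v σ : Vec d} (h : z ≠ v)
    (hσ : nsq σ = 1) (hx : 0 ≤ cosTh z v σ) (hR : (v, z) ∉ RegS θ L (post z v σ)) :
    nsq (z - v) ≤ 12 * nsq v ∧
      1 + nsq (post z v σ) ≤ 8 / θ * (1 - cosTh z v σ) * (1 + nsq v) ∧
      (1 + nsq (post z v σ) ≤ 24 * (1 - cosTh z v σ) * (1 + nsq v) ∨
        1 + nsq (post z v σ) ≤ 4 * nsq z ∨ 1 + nsq (post z v σ) ≤ 2 + 5 * nsq z) := by
  have h1 := io_nz h hσ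
  have h2 := io_nv h hσ
  have hx1 := one_sub_cosTh_nonneg (v := z) (w := v) hσ
  set y := post z v σ with hy
  set x := cosTh z v σ with hxd
  have hv0 := sq_nonneg' v
  have hz0 := sq_nonneg' z
  have hy0 := sq_nonneg' y
  have hN0 := sq_nonneg' (z - v)
  -- `|z-v|² ≤ (3/2)|z|² + 3|v|²`
  have hq1 : nsq (z - v) ≤ 3 / 2 * nsq z + 3 * nsq v := by
    have e1 := sq_nonneg' (z + (2 : ℝ) • v)
    rw [nsq_add, nsq_smul, dot_smul] at e1
    rw [nsq_sub]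
    nlinarith
  -- `|y|² ≤ (3/2)|y-z|² + 3|z|²`
  have hq2 : nsq y ≤ 3 / 2 * nsq (z - y) + 3 * nsq z := by
    have e1 := sq_nonneg' ((3 : ℝ) • z - y)
    rw [nsq_sub, nsq_smul, smul_dot] at e1
    rw [nsq_sub]
    nlinarith
  -- `|y-v|² ≤ 2|y|² + 2|v|²`
  have hq3 : nsq (y - v) ≤ 2 * nsq y + 2 * nsq v := by
    have e1 := sq_nonneg' (y + v)
    rw [nsq_add] at e1
    rw [nsq_sub]
    nlinarith
  have hcase : (nsq z < (1 + nsq y) / 4 ∧ (1 + nsq y) / 4 ≤ nsq (z - y)) ∨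
      (L * (1 + nsq y) < nsq v ∧ θ * (1 + nsq y) ≤ nsq (z - y)) := by
    by_contra hcon
    push Not at hcon
    apply hR
    refine ⟨?_, ?_⟩
    · rintro ⟨q1, q2⟩
      exact absurd q2 (not_le.2 (hcon.1 q1))
    · rintro ⟨q1, q2⟩
      exact absurd q2 (not_le.2 (hcon.2 q1))
  rw [h1] at hcase hq2
  rw [h2] at hq3
  have hθ8 : 8 ≤ 2 / θ := by rw [le_div_iff₀ hθ]; linarith
  have hθi : 0 < 1 / θ := by positivity
  rcases hcase with ⟨q1, q2⟩ | ⟨q1, q2⟩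
  · have hN : nsq (z - v) ≤ 12 * nsq v := by nlinarith
    have ha : 1 + nsq y ≤ 24 * (1 - x) * (1 + nsq v) := by
      have e1 : 1 + nsq y ≤ 2 * (nsq (z - v) * (1 - x)) := by linarith
      have e2 : nsq (z - v) * (1 - x) ≤ 12 * nsq v * (1 - x) := mul_le_mul_of_nonneg_right hN hx1
      nlinarith
    refine ⟨hN, ha.trans ?_, Or.inl ha⟩
    have e3 : 24 * (1 - x) ≤ 8 / θ * (1 - x) := by
      refine mul_le_mul_of_nonneg_right ?_ hx1
      rw [le_div_iff₀ hθ]; linarith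
    exact mul_le_mul_of_nonneg_right e3 (by linarith)
  · have hyv : nsq y ≤ nsq v := by nlinarith
    have hN : nsq (z - v) ≤ 8 * nsq v := by nlinarith
    refine ⟨by linarith, ?_, ?_⟩
    · have e1 : θ * (1 + nsq y) ≤ 8 * nsq v * (1 - x) / 2 := by
        refine q2.trans ?_
        have := mul_le_mul_of_nonneg_right hN hx1
        linarith
      have e2 : θ * (1 + nsq y) ≤ 8 * (1 - x) * (1 + nsq v) := by nlinarith
      calc 1 + nsq y = (θ * (1 + nsq y)) / θ := by field_simp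
        _ ≤ (8 * (1 - x) * (1 + nsq v)) / θ := by gcongr
        _ = _ := by ring
    · by_cases q3 : nsq z < (1 + nsq y) / 4
      · by_cases q4 : (1 + nsq y) / 4 ≤ nsq (z - v) * (1 - x) / 2
        · left
          have hN' : nsq (z - v) ≤ 12 * nsq v := by linarith
          have e1 : 1 + nsq y ≤ 2 * (nsq (z - v) * (1 - x)) := by
            linarith
          have e2 : nsq (z - v) * (1 - x) ≤ 12 * nsq v * (1 - x) := mul_le_mul_of_nonneg_right hN' hx1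
          nlinarith
        · right; right
          rw [not_le] at q4
          linarith
      · right; left
        linarith

/-- slow partners: `1+|v'|² ≤ (3/4)(1+|v|²)` -/
private lemma io_34 {δ a₀ : ℝ} (hδ0 : 0 < δ) (hδ : δ ≤ 1 / 20) (ha₀ : 64 ≤ a₀) {z v σ : Vec d} (h : z ≠ v)
    (hσ : nsq σ = 1) (hx : 0 ≤ cosTh z v σ) (hs : SlowR δ a₀ v z) :
    1 + nsq (post z v σ) ≤ 3 / 4 * (1 + nsq v) := by
  have h1 := io_nz h hσ
  set y := post z v σ with hy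
  set x := cosTh z v σ with hxd
  have hv0 := sq_nonneg' v
  have hz0 := sq_nonneg' z
  have hN0 := sq_nonneg' (z - v)
  have hz : nsq z ≤ 1 / 400 * (1 + nsq v) := by
    refine hs.2.trans (mul_le_mul_of_nonneg_right ?_ (by linarith))
    nlinarith
  have hA : 64 ≤ 1 + nsq v := ha₀.trans hs.1
  have hq1 : nsq (z - v) ≤ 9 * nsq z + 9 / 8 * nsq v := by
    have e1 := sq_nonneg' ((8 : ℝ) • z + v)
    rw [nsq_add, nsq_smul, smul_dot] at e1
    rw [nsq_sub]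
    nlinarith
  have hq2 : nsq y ≤ 9 / 8 * nsq (z - y) + 9 * nsq z := by
    have e1 := sq_nonneg' ((9 : ℝ) • z - y)
    rw [nsq_sub, nsq_smul, smul_dot] at e1
    rw [nsq_sub]
    nlinarith
  rw [h1] at hq2
  have e3 : nsq (z - v) * (1 - x) ≤ nsq (z - v) := by nlinarith
  nlinarith

/-- the bound of `ThD` from a pointwise bound -/
private lemma io_Th (H : Hyp d γ s b C Ca) {P : Lp} {ε : ℝ} (hε : 0 < ε) {v z : Vec d} (hvz : v ≠ z)
    {K : ℝ} (hK : 0 ≤ K) (hpt : ∀ σ : Vec d, nsq σ = 1 → 0 ≤ cosTh z v σ →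
      (v, z) ∉ RegS P.θ P.L (post z v σ) → rho P (post z v σ) v ≤ K * (1 - cosTh z v σ)) :
    ThD b ε P v z ≤ ENNReal.ofReal (K * (2 * C * Ca)) := by
  refine le_trans ?_ (io_ang H ε (Ne.symm hvz) hK)
  unfold ThD
  apply lintegral_mono_ae
  filter_upwards [surf_ae] with σ hσ
  split_ifs with hR
  · exact zero_le
  · refine ENNReal.ofReal_le_ofReal ?_
    have hx1 := one_sub_cosTh_nonneg (v := z) (w := v) hσ
    have hx0 := (abs_le.1 (abs_cosTh_le (v := z) (w := v) hσ)).1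
    rcases lt_or_ge (cosTh z v σ) 0 with h0 | h0
    · rw [bt_neg h0, zero_mul, zero_mul]
    · exact mul_le_mul_of_nonneg_left (hpt σ hσ h0 hR) (bt_nonneg H.bd hε hx0 (by linarith))

private lemma io_rho (P : Lp) (y v : Vec d) : rho P y v = ((1 + nsq y) / (1 + nsq v)) ^ P.p' := by
  unfold rho Tb
  rw [one_mul]

private lemma io_out (H : Hyp d γ s b C Ca) {P : Lp} (hp : 1 ≤ P.p') (hθ : 0 < P.θ) (hθ1 : P.θ ≤ 1 / 4)
    (hL : 1 ≤ P.L) {ε : ℝ} (hε : 0 < ε) {v z : Vec d} (hvz : v ≠ z) :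
    ThD b ε P v z ≤ ENNReal.ofReal ((8 / P.θ) ^ P.p' * (2 * C * Ca)) := by
  refine io_Th H hε hvz (by positivity) fun σ hσ hx hR => ?_
  have hx1 := one_sub_cosTh_nonneg (v := z) (w := v) hσ
  have h1 := (io_exc hθ hθ1 hL (Ne.symm hvz) hσ hx hR).2.1
  rw [io_rho]
  have h2 : (1 + nsq (post z v σ)) / (1 + nsq v) ≤ 8 / P.θ * (1 - cosTh z v σ) :=
    (div_le_iff₀ (io_pos v)).2 h1
  have h3 : 0 ≤ (1 + nsq (post z v σ)) / (1 + nsq v) := (div_pos (io_pos _) (io_pos _)).le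
  calc ((1 + nsq (post z v σ)) / (1 + nsq v)) ^ P.p' ≤ (8 / P.θ * (1 - cosTh z v σ)) ^ P.p' :=
        pow_le_pow_left₀ h3 h2 _
    _ = (8 / P.θ) ^ P.p' * (1 - cosTh z v σ) ^ P.p' := mul_pow _ _ _
    _ ≤ (8 / P.θ) ^ P.p' * (1 - cosTh z v σ) := by
        refine mul_le_mul_of_nonneg_left ?_ (by positivity)
        exact pow_le_of_le_one hx1 (by linarith) (by omega)

private lemma io_outF (H : Hyp d γ s b C Ca) {P : Lp} (hθ : 0 < P.θ) (hθ1 : P.θ ≤ 1 / 4) (hL : 1 ≤ P.L)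
    (hL' : 34 ≤ P.L') {ε : ℝ} (hε : 0 < ε) {v z : Vec d} (hvz : v ≠ z) (hf : FastR P v z) :
    ThD b ε P v z = 0 := by
  have h1 := io_Th H (P := P) hε hvz (K := 0) le_rfl (fun σ hσ hx hR => by
    exfalso
    have h1 := (io_exc hθ hθ1 hL (Ne.symm hvz) hσ hx hR).1
    have h2 : nsq z ≤ 2 * nsq (z - v) + 2 * nsq v := by
      have e1 := sq_nonneg' ((z - v) - v)
      rw [nsq_sub] at e1
      have e2 : nsq z = nsq ((z - v) + v) := by rw [sub_add_cancel]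
      rw [e2, nsq_add]
      linarith
    have h3 : P.L' * (1 + nsq v) < nsq z := hf
    have h4 := io_pos v
    have h5 := sq_nonneg' v
    have h6 : 34 * (1 + nsq v) ≤ P.L' * (1 + nsq v) := mul_le_mul_of_nonneg_right hL' h4.le
    linarith)
  rw [zero_mul, ENNReal.ofReal_zero] at h1
  exact le_antisymm h1 zero_le

private lemma io_outS (H : Hyp d γ s b C Ca) {P : Lp} (hp : 2 ≤ P.p') (hθ : 0 < P.θ) (hθ1 : P.θ ≤ 1 / 4)
    (hL : 1 ≤ P.L) (hδ0 : 0 < P.δ) (hδ : P.δ ≤ 1 / 20) (ha₀ : 64 ≤ P.a₀) {ε : ℝ} (hε : 0 < ε) {v z : Vec d}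
    (hvz : v ≠ z) (hs : SlowR P.δ P.a₀ v z) :
    ThD b ε P v z ≤ ENNReal.ofReal (((3 / 4) ^ (P.p' - 1) * 24 + (2 / P.a₀ + 5 * P.δ ^ 2) * (8 / P.θ)) *
      (2 * C * Ca)) := by
  have ha0 : 0 < P.a₀ := by linarith
  refine io_Th H hε hvz (by positivity) fun σ hσ hx hR => ?_
  have hx1 := one_sub_cosTh_nonneg (v := z) (w := v) hσ
  have hv := io_pos v
  obtain ⟨-, h1, h2⟩ := io_exc hθ hθ1 hL (Ne.symm hvz) hσ hx hR
  have h3 := io_34 hδ0 hδ ha₀ (Ne.symm hvz) hσ hx hs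
  rw [io_rho]
  set y := post z v σ with hy
  set x := cosTh z v σ with hxd
  set t := (1 + nsq y) / (1 + nsq v) with ht
  have ht0 : 0 ≤ t := (div_pos (io_pos _) (io_pos _)).le
  have ht1 : t ≤ 8 / P.θ * (1 - x) := (div_le_iff₀ hv).2 h1
  have ht34 : t ≤ 3 / 4 := (div_le_iff₀ hv).2 h3
  have hη0 : 0 ≤ 2 / P.a₀ + 5 * P.δ ^ 2 := by positivity
  have hη1 : 2 / P.a₀ + 5 * P.δ ^ 2 ≤ 1 := by
    have e1 : 2 / P.a₀ ≤ 1 / 2 := by rw [div_le_iff₀ ha0]; linarith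
    nlinarith
  have hsplit : t ^ P.p' = t ^ (P.p' - 1) * t := by
    rw [← pow_succ]
    congr 1
    omega
  have h8 : 0 ≤ 8 / P.θ * (1 - x) := by positivity
  have h24 : 0 ≤ (24 : ℝ) * (1 - x) := by positivity
  rw [hsplit]
  have hsmall : t ≤ 2 / P.a₀ + 5 * P.δ ^ 2 → t ^ (P.p' - 1) * t ≤
      ((3 / 4) ^ (P.p' - 1) * 24 + (2 / P.a₀ + 5 * P.δ ^ 2) * (8 / P.θ)) * (1 - x) := by
    intro hη
    have e1 : t ^ (P.p' - 1) ≤ 2 / P.a₀ + 5 * P.δ ^ 2 :=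
      (pow_le_of_le_one ht0 (by linarith) (by omega)).trans hη
    calc t ^ (P.p' - 1) * t ≤ (2 / P.a₀ + 5 * P.δ ^ 2) * (8 / P.θ * (1 - x)) :=
          mul_le_mul e1 ht1 ht0 hη0
      _ ≤ (3 / 4) ^ (P.p' - 1) * (24 * (1 - x)) + (2 / P.a₀ + 5 * P.δ ^ 2) * (8 / P.θ * (1 - x)) := by
          have : 0 ≤ ((3 : ℝ) / 4) ^ (P.p' - 1) * (24 * (1 - x)) := by positivity
          linarith
      _ = _ := by ring
  rcases h2 with h2 | h2 | h2
  · have e1 : t ≤ 24 * (1 - x) := (div_le_iff₀ hv).2 h2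
    calc t ^ (P.p' - 1) * t ≤ (3 / 4) ^ (P.p' - 1) * (24 * (1 - x)) :=
          mul_le_mul (pow_le_pow_left₀ ht0 ht34 _) e1 ht0 (by positivity)
      _ ≤ (3 / 4) ^ (P.p' - 1) * (24 * (1 - x)) + (2 / P.a₀ + 5 * P.δ ^ 2) * (8 / P.θ * (1 - x)) := by
          have : 0 ≤ (2 / P.a₀ + 5 * P.δ ^ 2) * (8 / P.θ * (1 - x)) := mul_nonneg hη0 h8
          linarith
      _ = _ := by ring
  · apply hsmall
    rw [div_le_iff₀ hv]
    have e1 := hs.2
    have e2 : 0 ≤ 2 / P.a₀ * (1 + nsq v) := by positivity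
    have e3 : 0 ≤ P.δ ^ 2 * (1 + nsq v) := by positivity
    linarith
  · apply hsmall
    rw [div_le_iff₀ hv]
    have e1 := hs.2
    have e2 : 2 ≤ 2 / P.a₀ * (1 + nsq v) := by
      rw [div_mul_eq_mul_div, le_div_iff₀ ha0]
      have := hs.1
      linarith
    linarith

/-! ### in-type -/

private lemma io_GMg (H : Hyp d γ s b C Ca) {g G : Vec d → ℝ} (S : Set (Vec d × Vec d))
    {v m : Vec d} (h : ∀ σ, nsq σ = 1 → 0 < dot m σ → g (v + hh σ m) ≤ G (v + hh σ m)) {ε : ℝ} (hε : 0 < ε) :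
    GMg γ b ε g S v m ≤ GMg γ b ε G S v m := by
  unfold GMg
  apply lintegral_mono_ae
  filter_upwards [ae_restrict_of_ae surf_ae, ae_restrict_mem (measurableSet_half m)] with σ hσ hd
  have hK := fast_Kn0 (γ := γ) H.bd hε hσ hd
  split_ifs
  · exact ENNReal.ofReal_le_ofReal (mul_le_mul_of_nonneg_left (h σ hσ hd) hK)
  · exact le_rfl

/-- `(1+x)^n ≤ 1 + 2^n x` -/
private lemma io_pow {x : ℝ} (h0 : 0 ≤ x) (h1 : x ≤ 1) (n : ℕ) : (1 + x) ^ n ≤ 1 + (2 ^ n - 1) * x := by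
  induction n with
  | zero => simp
  | succ n ih =>
    have e1 : (1 : ℝ) ≤ 2 ^ n := one_le_pow₀ (by norm_num)
    calc (1 + x) ^ (n + 1) = (1 + x) ^ n * (1 + x) := pow_succ _ _
      _ ≤ (1 + (2 ^ n - 1) * x) * (1 + x) := mul_le_mul_of_nonneg_right ih (by linarith)
      _ = 1 + 2 ^ n * x + (2 ^ n - 1) * (x * x) := by ring
      _ ≤ 1 + 2 ^ n * x + (2 ^ n - 1) * x := by
          have e2 : x * x ≤ x := by nlinarith
          have e3 : (2 ^ n - 1) * (x * x) ≤ (2 ^ n - 1) * x := mul_le_mul_of_nonneg_left e2 (by linarith)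
          linarith
      _ = _ := by ring

/-- the comparison of the barriers for slow partners -/
private lemma io_bar {δ a₀ δ₁ : ℝ} {n : ℕ} (hδ0 : 0 < δ) (hδ : δ ≤ 1 / 20) (hδ₁ : 0 ≤ δ₁)
    (hδn : 2 ^ n * (4 * δ) ≤ δ₁) {v m σ : Vec d} (hs : SlowR δ a₀ v (v - m)) (hd : 0 < dot m σ) :
    ((1 + nsq v) / (1 + nsq (v + hh σ m))) ^ n ≤ 1 + δ₁ * mm 1 v (v + hh σ m) := by
  have hA := io_pos v
  have hB := io_pos (v + hh σ m)
  have hH0 := sq_nonneg' (hh σ m)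
  have h1 := one_add_nsq_add v hd
  have h2 := dot_sq_le (v - m) (hh σ m)
  set A := 1 + nsq v with hAd
  set t := Real.sqrt (nsq (hh σ m) / A) with ht
  have ht0 : 0 ≤ t := Real.sqrt_nonneg _
  have ht2 : t ^ 2 * A = nsq (hh σ m) := by
    rw [ht, Real.sq_sqrt (div_nonneg hH0 hA.le)]
    field_simp
  have hmm0 := mm_nonneg 1 v (v + hh σ m)
  -- `|z·h| ≤ δ t A`
  have h3 : |dot (v - m) (hh σ m)| ≤ δ * t * A := by
    apply abs_le_of_sq_le_sq _ (by positivity)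
    refine h2.trans ?_
    rw [← ht2]
    calc nsq (v - m) * (t ^ 2 * A) ≤ δ ^ 2 * A * (t ^ 2 * A) :=
          mul_le_mul_of_nonneg_right hs.2 (by positivity)
      _ = _ := by ring
  have h4 := (abs_le.1 h3).1
  have hBA : A * (1 + t ^ 2 - 2 * δ * t) ≤ 1 + nsq (v + hh σ m) := by
    rw [h1, ← ht2]
    linarith
  rcases le_or_gt (2 * δ) t with h5 | h5
  · have h6 : A / (1 + nsq (v + hh σ m)) ≤ 1 := by
      rw [div_le_one hB]
      refine le_trans ?_ hBA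
      nlinarith
    have h7 : (A / (1 + nsq (v + hh σ m))) ^ n ≤ 1 := pow_le_one₀ (div_pos hA hB).le h6
    have h8 : 0 ≤ δ₁ * mm 1 v (v + hh σ m) := mul_nonneg hδ₁ hmm0
    linarith
  · have ht1 : t ≤ 1 / 10 := by linarith
    have hx0 : 0 ≤ 4 * δ * t := by positivity
    have hx1 : 4 * δ * t ≤ 1 := by nlinarith
    have h6 : A / (1 + nsq (v + hh σ m)) ≤ 1 + 4 * δ * t := by
      rw [div_le_iff₀ hB]
      have e1 : 1 ≤ (1 + 4 * δ * t) * (1 + t ^ 2 - 2 * δ * t) := by nlinarith [sq_nonneg t, mul_nonneg hx0 (sq_nonneg t)]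
      calc A = 1 * A := (one_mul _).symm
        _ ≤ (1 + 4 * δ * t) * (1 + t ^ 2 - 2 * δ * t) * A := mul_le_mul_of_nonneg_right e1 hA.le
        _ = (1 + 4 * δ * t) * (A * (1 + t ^ 2 - 2 * δ * t)) := by ring
        _ ≤ _ := mul_le_mul_of_nonneg_left hBA (by linarith)
    have hmm : mm 1 v (v + hh σ m) = t := by
      unfold mm
      rw [add_sub_cancel_left, ← hAd, min_eq_right, ht, Real.sqrt_eq_rpow]
      rw [← ht2, mul_div_assoc, div_self hA.ne', mul_one]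
      nlinarith
    rw [hmm]
    calc (A / (1 + nsq (v + hh σ m))) ^ n ≤ (1 + 4 * δ * t) ^ n := pow_le_pow_left₀ (div_pos hA hB).le h6 _
      _ ≤ 1 + (2 ^ n - 1) * (4 * δ * t) := io_pow hx0 hx1 n
      _ ≤ 1 + 2 ^ n * (4 * δ) * t := by nlinarith
      _ ≤ 1 + δ₁ * t := by
          have := mul_le_mul_of_nonneg_right hδn ht0
          linarith

private lemma io_ratio (v u : Vec d) : 0 ≤ (1 + nsq v) / (1 + nsq u) := (div_pos (io_pos _) (io_pos _)).le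

private lemma io_PC {δ₁ : ℝ} (hδ₁ : 0 ≤ δ₁) (v : Vec d) : PCond δ₁ 1 v (fun u => δ₁ * mm 1 v u) := by
  refine ⟨(mm_meas 1 v).const_mul _, fun u => ?_, fun m _ k _ => ?_⟩
  · have h1 := mm_nonneg 1 v u
    have h2 := mm_le_one zero_le_one v u
    rw [abs_of_nonneg (mul_nonneg hδ₁ h1)]
    nlinarith
  · rw [← integral_const_mul]
    refine le_of_eq (integral_congr_ae (Eventually.of_forall fun σ => ?_))
    dsimp only
    ring

private lemma io_PC0 (v : Vec d) : PCond 0 1 v (fun _ => 0) := by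
  refine ⟨measurable_const, fun u => ?_, fun m _ k _ => ?_⟩
  · rw [abs_zero]
  · simp

private lemma io_TbP0 (p : ℕ) (c : ℝ) (v : Vec d) : TbP p c v (fun _ => 0) = Tb p c v := by
  funext u
  unfold TbP
  rw [add_zero, mul_one]

private lemma io_slowM (H : Hyp d γ s b C Ca) {p₁ p' : ℕ} (hp : p₁ ≤ 2 * p') {δ a₀ δ₁ : ℝ} (hδ0 : 0 < δ)
    (hδ : δ ≤ 1 / 20) (hδ₁ : 0 ≤ δ₁) (hδn : 2 ^ (2 * p' - p₁) * (4 * δ) ≤ δ₁) {v m : Vec d}
    (hs : SlowR δ a₀ v (v - m)) (S : Set (Vec d × Vec d)) {ε : ℝ} (hε : 0 < ε) :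
    GMg γ b ε (Tb (2 * p') 1 v) S v m ≤ GMg γ b ε (TbP p₁ 1 v (fun u => δ₁ * mm 1 v u)) S v m := by
  refine io_GMg H S (fun σ hσ hd => ?_) hε
  have h1 := io_bar (a₀ := a₀) (n := 2 * p' - p₁) hδ0 hδ hδ₁ hδn hs hd
  have h0 := io_ratio v (v + hh σ m)
  unfold TbP Tb
  rw [one_mul, one_mul]
  have e1 : 2 * p' = p₁ + (2 * p' - p₁) := by omega
  rw [e1, pow_add]
  refine mul_le_mul_of_nonneg_left ?_ (pow_nonneg h0 _)
  have e2 : p₁ + (2 * p' - p₁) - p₁ = 2 * p' - p₁ := by omega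
  exact h1

/-- slow partners: `|m|² ≥ (9/20)(1+|v|²)` and `|z|² < (1+|v|²)/4` -/
private lemma io_m {δ a₀ : ℝ} (hδ0 : 0 < δ) (hδ : δ ≤ 1 / 20) (ha₀ : 64 ≤ a₀) {v m : Vec d}
    (hs : SlowR δ a₀ v (v - m)) : nsq (v - m) ≤ 1 / 400 * (1 + nsq v) ∧ 9 / 20 * (1 + nsq v) ≤ nsq m := by
  have hv0 := sq_nonneg' v
  have hz : nsq (v - m) ≤ 1 / 400 * (1 + nsq v) := by
    refine hs.2.trans (mul_le_mul_of_nonneg_right ?_ (by linarith))
    nlinarith
  have hA : 64 ≤ 1 + nsq v := ha₀.trans hs.1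
  refine ⟨hz, ?_⟩
  have h1 : nsq v ≤ 2 * nsq (v - m) + 2 * nsq m := by
    have e1 := sq_nonneg' ((v - m) - m)
    rw [nsq_sub] at e1
    have e2 : nsq v = nsq ((v - m) + m) := by rw [sub_add_cancel]
    rw [e2, nsq_add]
    linarith
  linarith

private lemma io_K (H : Hyp d γ s b C Ca) {m σ : Vec d} {ε : ℝ} (hε : 0 < ε) (hσ : nsq σ = 1)
    (hd : 0 < dot m σ) : 0 ≤ Kn d γ (fun x => bt b ε (-x)) (co m σ) := by
  have h1 := co_pos hd
  have h2 := co_le_one (m := m) hσ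
  have h3 : 0 ≤ bt b ε (-(2 * co m σ ^ 2 - 1)) := bt_nonneg H.bd hε (by nlinarith) (by nlinarith)
  have h4 : 0 ≤ co m σ ^ (-2 - γ) := Real.rpow_nonneg h1.le _
  unfold Kn
  positivity

/-- the exceptional part of slow partners -/
private lemma io_slowE (H : Hyp d γ s b C Ca) {p₁ p' : ℕ} (hp : p₁ ≤ p') {δ a₀ θ L : ℝ} (hδ0 : 0 < δ)
    (hδ : δ ≤ 1 / 20) (ha₀ : 64 ≤ a₀) {v m : Vec d} (hs : SlowR δ a₀ v (v - m)) {ε : ℝ} (hε : 0 < ε) :
    GEg γ b ε (Tb p' 1 v) (RegS θ L v) v m ≤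
      ENNReal.ofReal ((3 / 4) ^ (p' - p₁)) * GEg γ b ε (Tb p₁ 1 v) (RegS 1 1 v) v m := by
  obtain ⟨hz, hm⟩ := io_m hδ0 hδ ha₀ hs
  have hA := io_pos v
  have hex : ∀ (θ L : ℝ) (u : Vec d), (u, v - m) ∉ RegS θ L v := by
    intro θ L u hu
    refine hu.1 ⟨?_, ?_⟩
    · change nsq (v - m) < (1 + nsq v) / 4
      linarith
    · change (1 + nsq v) / 4 ≤ nsq (v - m - v)
      have e7 : v - m - v = -m := by abel
      rw [e7, Pool.Agent.H25.Kin.sq_neg]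
      linarith
  unfold GEg
  rw [← lintegral_const_mul' _ _ ENNReal.ofReal_ne_top]
  apply lintegral_mono_ae
  filter_upwards [ae_restrict_of_ae surf_ae, ae_restrict_mem (measurableSet_half m)] with σ hσ hd
  rw [if_neg (hex θ L _), if_neg (hex 1 1 _), ← ENNReal.ofReal_mul (by positivity)]
  refine ENNReal.ofReal_le_ofReal ?_
  have hK := io_K (γ := γ) H hε hσ hd
  have hcp := co_pos hd
  rcases lt_or_ge (-(2 * co m σ ^ 2 - 1)) 0 with hx | hx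
  · have e1 : Kn d γ (fun x => bt b ε (-x)) (co m σ) = 0 := by
      unfold Kn
      dsimp only
      rw [bt_neg hx, mul_zero]
    rw [e1, zero_mul, zero_mul, mul_zero]
  · have h0 := io_ratio v (v + hh σ m)
    have hB := io_pos (v + hh σ m)
    have h34 : (1 + nsq v) / (1 + nsq (v + hh σ m)) ≤ 3 / 4 := by
      rw [div_le_iff₀ hB]
      have h1 := one_add_nsq_add v hd
      have h2 := dot_sq_le (v - m) (hh σ m)
      have hH0 := sq_nonneg' (hh σ m)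
      have hhm : nsq m ≤ nsq (hh σ m) := by
        rw [nsq_hh hσ hd]
        have hc2 : 0 < co m σ ^ 2 := by positivity
        have e2 : 1 ≤ (1 - co m σ ^ 2) / co m σ ^ 2 := by
          rw [le_div_iff₀ hc2]
          linarith
        have := sq_nonneg' m
        nlinarith
      have h3 : |dot (v - m) (hh σ m)| ≤ 1 / 40 * ((1 + nsq v) + nsq (hh σ m)) := by
        apply abs_le_of_sq_le_sq _ (by positivity)
        refine h2.trans ?_
        have e3 : nsq (v - m) * nsq (hh σ m) ≤ 1 / 400 * (1 + nsq v) * nsq (hh σ m) :=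
          mul_le_mul_of_nonneg_right hz hH0
        nlinarith [sq_nonneg ((1 + nsq v) - nsq (hh σ m))]
      have h4 := (abs_le.1 h3).1
      linarith
    unfold Tb
    rw [one_mul, one_mul]
    have e1 : p' = (p' - p₁) + p₁ := by omega
    calc Kn d γ (fun x => bt b ε (-x)) (co m σ) * ((1 + nsq v) / (1 + nsq (v + hh σ m))) ^ p'
        = Kn d γ (fun x => bt b ε (-x)) (co m σ) * (((1 + nsq v) / (1 + nsq (v + hh σ m))) ^ (p' - p₁) *
          ((1 + nsq v) / (1 + nsq (v + hh σ m))) ^ p₁) := by rw [← pow_add, ← e1]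
      _ ≤ Kn d γ (fun x => bt b ε (-x)) (co m σ) * ((3 / 4) ^ (p' - p₁) *
          ((1 + nsq v) / (1 + nsq (v + hh σ m))) ^ p₁) := by
          gcongr
      _ = _ := by ring

private lemma io_med (H : Hyp d γ s b C Ca) {L : ℝ} {v m : Vec d} (h : nsq (v - m) ≤ L * (1 + nsq v)) :
    (1 + nsq m / (1 + nsq v)) ^ s ≤ (3 + 2 * L) ^ s := by
  have hA := io_pos v
  have hm0 := sq_nonneg' m
  have hs := H.hs
  have h1 : nsq m ≤ (2 + 2 * L) * (1 + nsq v) := by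
    have e1 := nsq_par v (v - m)
    rw [sub_sub_cancel] at e1
    have e3 := sq_nonneg' (v + (v - m))
    have e4 := sq_nonneg' v
    nlinarith
  refine Real.rpow_le_rpow ?_ ?_ hs.le
  · have := div_nonneg hm0 hA.le
    linarith
  · have : nsq m / (1 + nsq v) ≤ 2 + 2 * L := (div_le_iff₀ hA).2 h1
    linarith

private lemma io_AM (P : Lp) (ε : ℝ) (v m : Vec d) : AM P.τ γ b ε (TbA P v m) v m = 0 := by
  unfold AM
  refine (lintegral_congr fun σ => ?_).trans lintegral_zero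
  split_ifs with h
  · have e1 : TbA P v m (v + hh σ m) = 0 := by
      unfold TbA
      rw [add_sub_cancel_left, if_pos h]
    rw [e1, mul_zero, ENNReal.ofReal_zero]
  · rfl

private lemma io_GL {θ L₀ L : ℝ} (hL : L₀ ≤ L) {v m : Vec d} (h : L * (1 + nsq v) < nsq (v - m)) (ε : ℝ)
    (g : Vec d → ℝ) : GMg γ b ε g (RegS θ L v) v m = GMg γ b ε g (RegS θ L₀ v) v m := by
  have hA := io_pos v
  have h0 : L₀ * (1 + nsq v) < nsq (v - m) := lt_of_le_of_lt (mul_le_mul_of_nonneg_right hL hA.le) h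
  have e : ∀ u : Vec d, (v - m, u) ∈ RegS θ L v ↔ (v - m, u) ∈ RegS θ L₀ v := by
    intro u
    constructor
    · rintro ⟨q1, q2⟩
      exact ⟨q1, fun q => q2 ⟨h, q.2⟩⟩
    · rintro ⟨q1, q2⟩
      exact ⟨q1, fun q => q2 ⟨h0, q.2⟩⟩
  unfold GMg
  refine lintegral_congr fun σ => ?_
  by_cases h1 : (v - m, v + hh σ m) ∈ RegS θ L v
  · rw [if_pos h1, if_pos ((e _).1 h1)]
  · rw [if_neg h1, if_neg (fun hc => h1 ((e _).2 hc))]

/-- **choice of the parameters**: `p', κ, θ, c₅, KD` first, then `K₃` arbitrary, then the rest -/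
theorem in_out (HL : HypL d γ s b C Ca cb) (h2 : 2 * s < 1) (hγ : 0 ≤ γ) :
    ∃ (p' : ℕ) (κ θ c₅ KD : ℝ), (d : ℝ) + γ + 4 ≤ 2 * p' ∧ 0 < κ ∧ 0 ≤ KD ∧ ∀ K₃ : ℝ, 0 ≤ K₃ →
      ∃ (L L' δ a₀ τ K ε₀ : ℝ), Lp.Ok ⟨p', κ, θ, c₅, KD, K₃, L, L', δ, a₀, τ, K⟩ ∧ 0 < ε₀ ∧ ε₀ ≤ 1 / 64 ∧
        ∀ ε : ℝ, 0 < ε → ε ≤ ε₀ → InOut d γ s b ⟨p', κ, θ, c₅, KD, K₃, L, L', δ, a₀, τ, K⟩ ε := by
  have H := HL.H
  have hC0 := H.bd.1
  have hCa0 := H.an.1
  obtain ⟨Cb, hCb⟩ : ∃ Cb : ℝ, Cb = 2 * C * Ca := ⟨_, rfl⟩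
  have hCb0 : 0 ≤ Cb := by rw [hCb]; positivity
  -- the small exponent
  obtain ⟨p₁, hp₁⟩ : ∃ p₁ : ℕ, (d : ℝ) + γ + 4 ≤ 2 * p₁ := by
    obtain ⟨n, hn⟩ := exists_nat_ge ((d : ℝ) + γ + 4)
    exact ⟨n, by have : (0 : ℝ) ≤ n := Nat.cast_nonneg n; linarith⟩
  have hp₁2 : 2 ≤ p₁ := by
    have h3 : (2 : ℝ) ≤ p₁ := by
      have : (0 : ℝ) ≤ d := Nat.cast_nonneg d
      linarith
    exact_mod_cast h3
  obtain ⟨δs, hδs, hδs1, as, has, κ, hκ, hslow⟩ := slow_PW HL (β := 1) h2 le_rfl hp₁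
  obtain ⟨Ke, hKe, hexc⟩ := exc_boundg H hp₁ (θ := 1) one_pos
  obtain ⟨N, hN⟩ : ∃ N : ℕ, (3 / 4 : ℝ) ^ N * (Ke + 24 * Cb + 1) ≤ κ / 32 := by
    obtain ⟨N, hN⟩ := exists_pow_lt_of_lt_one (show 0 < κ / 32 / (Ke + 24 * Cb + 1) by positivity)
      (show (3 / 4 : ℝ) < 1 by norm_num)
    exact ⟨N, ((lt_div_iff₀ (by positivity)).1 hN).le⟩
  obtain ⟨p', hp'⟩ : ∃ p' : ℕ, p' = p₁ + N + 1 := ⟨_, rfl⟩
  have hpp : (d : ℝ) + γ + 4 ≤ 2 * (p' : ℝ) := by
    have : (p₁ : ℝ) ≤ p' := by exact_mod_cast (by omega : p₁ ≤ p')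
    linarith
  have hN1 : (3 / 4 : ℝ) ^ (p' - p₁) ≤ (3 / 4) ^ N :=
    pow_le_pow_of_le_one (by norm_num) (by norm_num) (by omega)
  have hN2 : (3 / 4 : ℝ) ^ (p' - 1) ≤ (3 / 4) ^ N :=
    pow_le_pow_of_le_one (by norm_num) (by norm_num) (by omega)
  have hN0 : (0 : ℝ) < (3 / 4) ^ N := by positivity
  obtain ⟨c₅, θ, hc₅, hθ, hθ4, hfast⟩ := fast_margin HL (2 * p')
  obtain ⟨Ke2, hKe2, hexc2⟩ := exc_boundg H hpp hθ
  refine ⟨p', κ, θ, c₅, (8 / θ) ^ p' * Cb, hpp, hκ, by positivity, fun K₃ hK₃ => ?_⟩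
  obtain ⟨L₀, hL₀, εf, hεf, hfast'⟩ := hfast θ hθ le_rfl (K₃ + Ke2) (by positivity)
  obtain ⟨L, hLd⟩ : ∃ L : ℝ, L = max L₀ 34 := ⟨_, rfl⟩
  have hLL₀ : L₀ ≤ L := by rw [hLd]; exact le_max_left _ _
  have hL34 : 34 ≤ L := by rw [hLd]; exact le_max_right _ _
  have hL1 : 1 ≤ L := by linarith
  obtain ⟨τ, ετ, hτ, hτ1, hτL, hετ, hall⟩ := all_boundW HL (β := 1) h2 le_rfl (2 * p') hL1
    (K₃ := K₃ + Ke2) (by positivity)
  obtain ⟨Km, hKm, hmed⟩ := med_PW H (β := 1) h2 le_rfl (2 * p')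
  obtain ⟨δ₁, hδ₁, hδ₁2, hslow'⟩ := hslow θ hθ
  obtain ⟨q, hq⟩ : ∃ q : ℝ, q = κ * θ / (256 * (Cb + 1)) := ⟨_, rfl⟩
  have hq0 : 0 < q := by rw [hq]; positivity
  have hqC : q * (8 / θ) * Cb ≤ κ / 32 := by
    have e1 : q * (8 / θ) * (Cb + 1) = κ / 32 := by
      rw [hq]
      field_simp
      norm_num
    have e2 : 0 ≤ q * (8 / θ) := by positivity
    nlinarith
  obtain ⟨δ, hδd⟩ : ∃ δ : ℝ, δ = min (min δs (1 / 20)) (min (δ₁ / (4 * 2 ^ (2 * p' - p₁))) (q / 10)) :=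
    ⟨_, rfl⟩
  have hδ0 : 0 < δ := by
    rw [hδd]
    exact lt_min (lt_min hδs (by norm_num)) (lt_min (by positivity) (by positivity))
  have hδa : δ ≤ δs := by rw [hδd]; exact (min_le_left _ _).trans (min_le_left _ _)
  have hδb : δ ≤ 1 / 20 := by rw [hδd]; exact (min_le_left _ _).trans (min_le_right _ _)
  have hδc : 2 ^ (2 * p' - p₁) * (4 * δ) ≤ δ₁ := by
    have e1 : δ ≤ δ₁ / (4 * 2 ^ (2 * p' - p₁)) := by
      rw [hδd]; exact (min_le_right _ _).trans (min_le_left _ _)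
    rw [le_div_iff₀ (by positivity)] at e1
    linarith
  have hδq : δ ≤ q / 10 := by rw [hδd]; exact (min_le_right _ _).trans (min_le_right _ _)
  obtain ⟨a₀, ha₀d⟩ : ∃ a₀ : ℝ, a₀ = max (max as 64) (4 / q) := ⟨_, rfl⟩
  have ha₀a : as ≤ a₀ := by rw [ha₀d]; exact (le_max_left _ _).trans (le_max_left _ _)
  have ha₀b : 64 ≤ a₀ := by rw [ha₀d]; exact (le_max_right _ _).trans (le_max_left _ _)
  have ha₀q : 4 / q ≤ a₀ := by rw [ha₀d]; exact le_max_right _ _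
  have ha₀0 : 0 < a₀ := by linarith
  have hη : 2 / a₀ + 5 * δ ^ 2 ≤ q := by
    have e1 : 2 / a₀ ≤ q / 2 := by
      rw [div_le_iff₀ ha₀0]
      rw [div_le_iff₀ hq0] at ha₀q
      linarith
    have e2 : δ ^ 2 ≤ δ := by nlinarith
    linarith
  have hmono : ∀ v z : Vec d, SlowR δ a₀ v z → SlowR δs as v z := by
    intro v z hs
    refine ⟨ha₀a.trans hs.1, hs.2.trans (mul_le_mul_of_nonneg_right ?_ (io_pos v).le)⟩
    exact pow_le_pow_left₀ hδ0.le hδa 2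
  obtain ⟨ε₀, hε₀d⟩ : ∃ ε₀ : ℝ, ε₀ = min (1 / 64) (min εf ετ) := ⟨_, rfl⟩
  have hε₀0 : 0 < ε₀ := by rw [hε₀d]; exact lt_min (by norm_num) (lt_min hεf hετ)
  have hε₀a : ε₀ ≤ 1 / 64 := by rw [hε₀d]; exact min_le_left _ _
  have hε₀b : ε₀ ≤ εf := by rw [hε₀d]; exact (min_le_right _ _).trans (min_le_left _ _)
  have hε₀c : ε₀ ≤ ετ := by rw [hε₀d]; exact (min_le_right _ _).trans (min_le_right _ _)
  have hs := H.hs
  refine ⟨L, L, δ, a₀, τ, Km * (3 + 2 * L) ^ s + Ke2, ε₀, ?_, hε₀0, hε₀a, fun ε hε hεε => ?_⟩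
  · exact ⟨by dsimp only; omega, hκ, hθ, hθ4, hc₅, by positivity, hK₃, hL1, le_rfl, hL34, hδ0,
      by dsimp only; linarith, by dsimp only; linarith, hτ, hτ1, hτL, by positivity⟩
  have hE2 : ∀ v m : Vec d, GEg γ b ε (Tb p' 1 v) (RegS θ L v) v m ≤ ENNReal.ofReal Ke2 := by
    intro v m
    have e1 := hexc2 L hL1 (Tb p' 1 v) (Tb_nonneg zero_le_one v) v (fun u => (Tb_eq p' 1 v u).le) m ε hε
    rwa [Tb_self, mul_one] at e1
  refine ⟨fun v m hm hsl => ?_, fun v m hm hmd => ?_, fun v m hm hmd => ?_, fun v m hm hfa => ?_,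
    fun v z hvz => ?_, fun v z hvz hsl => ?_, fun v z hvz hfa => ?_⟩
  · -- slow
    dsimp only at hsl ⊢
    have e1 := io_slowM (γ := γ) H (p' := p') (by omega : p₁ ≤ 2 * p') hδ0 hδb hδ₁.le hδc hsl (RegS θ L v) hε
    have e2 := hslow' L hL1 1 zero_le_one v _ (io_PC hδ₁.le v) m hm (hmono _ _ hsl) ε hε (hεε.trans hε₀a)
    rw [mul_one, ENNReal.ofReal_one, one_mul] at e2
    have e3 := io_slowE (γ := γ) H (θ := θ) (L := L) (by omega : p₁ ≤ p') hδ0 hδb ha₀b hsl hε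
    have e4 := hexc 1 le_rfl (Tb p₁ 1 v) (Tb_nonneg zero_le_one v) v (fun u => (Tb_eq p₁ 1 v u).le) m ε hε
    rw [Tb_self, mul_one] at e4
    have e5 : GEg γ b ε (Tb p' 1 v) (RegS θ L v) v m ≤ ENNReal.ofReal (1 / 4 * κ) := by
      refine e3.trans ((mul_le_mul_right e4 _).trans ?_)
      rw [← ENNReal.ofReal_mul (by positivity)]
      refine ENNReal.ofReal_le_ofReal ?_
      have e6 : (3 / 4 : ℝ) ^ (p' - p₁) * Ke ≤ (3 / 4) ^ N * Ke := mul_le_mul_of_nonneg_right hN1 hKe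
      have e7 : 0 ≤ (3 / 4 : ℝ) ^ N * (24 * Cb + 1) := by positivity
      nlinarith
    have e8 : ENNReal.ofReal (1 / 4 * κ) + ENNReal.ofReal (3 / 4 * κ) = ENNReal.ofReal κ := by
      rw [← ENNReal.ofReal_add (by positivity) (by positivity)]
      congr 1
      ring
    calc GMg γ b ε (Tb (2 * p') 1 v) (RegS θ L v) v m + GEg γ b ε (Tb p' 1 v) (RegS θ L v) v m +
          ENNReal.ofReal (3 / 4 * κ) ≤ GMg γ b ε (TbP p₁ 1 v (fun u => δ₁ * mm 1 v u)) (RegS θ L v) v m +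
          ENNReal.ofReal (1 / 4 * κ) + ENNReal.ofReal (3 / 4 * κ) := by
          gcongr
      _ = GMg γ b ε (TbP p₁ 1 v (fun u => δ₁ * mm 1 v u)) (RegS θ L v) v m + ENNReal.ofReal κ := by
          rw [add_assoc, e8]
      _ ≤ GMg γ b ε (TbP p₁ 1 v (fun u => δ₁ * mm 1 v u)) (RegS θ L v) v m +
          GEg γ b ε (TbP p₁ 1 v (fun u => δ₁ * mm 1 v u)) (RegS θ L v) v m + ENNReal.ofReal κ := by
          gcongr
          exact le_self_add
      _ ≤ _ := e2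
  · -- medium
    dsimp only at hmd ⊢
    have e1 := hmed θ L 0 le_rfl zero_le_one 1 zero_le_one v _ (io_PC0 v) m hm ε hε
    rw [io_TbP0, ENNReal.ofReal_one, one_mul, mul_one] at e1
    have e2 : ENNReal.ofReal (Km * (1 + nsq m / (1 + nsq v)) ^ s) ≤ ENNReal.ofReal (Km * (3 + 2 * L) ^ s) :=
      ENNReal.ofReal_le_ofReal (mul_le_mul_of_nonneg_left (io_med H hmd.1) hKm)
    rw [ENNReal.ofReal_add (by positivity) hKe2, ← add_assoc]
    exact add_le_add (e1.trans (add_le_add le_rfl e2)) (hE2 v m)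
  · -- medium, without the small displacements
    dsimp only at hmd ⊢
    set P : Lp := ⟨p', κ, θ, c₅, (8 / θ) ^ p' * Cb, K₃, L, L, δ, a₀, τ, Km * (3 + 2 * L) ^ s + Ke2⟩ with hP
    have e1 := hall θ 0 le_rfl (by norm_num) 1 zero_le_one (TbA P v m) v _ (io_PC0 v) (fun u => by
      rw [io_TbP0]
      unfold TbA
      split_ifs
      · exact Tb_nonneg zero_le_one v u
      · exact le_rfl) m hm hmd.1 ε hε (hεε.trans hε₀c)
    have e2 : AM τ γ b ε (TbA P v m) v m = 0 := io_AM P ε v m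
    rw [e2, ENNReal.ofReal_one, one_mul, mul_one, add_zero, ENNReal.ofReal_add hK₃ hKe2] at e1
    calc GMg γ b ε (TbA P v m) (RegS θ L v) v m + GEg γ b ε (Tb p' 1 v) (RegS θ L v) v m +
          ENNReal.ofReal K₃ ≤ GMg γ b ε (TbA P v m) (RegS θ L v) v m + ENNReal.ofReal Ke2 +
          ENNReal.ofReal K₃ := by
          gcongr
          exact hE2 v m
      _ = GMg γ b ε (TbA P v m) (RegS θ L v) v m + (ENNReal.ofReal K₃ + ENNReal.ofReal Ke2) := by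
          rw [add_assoc, add_comm (ENNReal.ofReal Ke2)]
      _ ≤ _ := e1
  · -- fast
    have hfa' : L * (1 + nsq v) < nsq (v - m) := hfa
    have hfa0 : L₀ * (1 + nsq v) < nsq (v - m) :=
      lt_of_le_of_lt (mul_le_mul_of_nonneg_right hLL₀ (io_pos v).le) hfa'
    have e1 := hfast' (Tb (2 * p') 1 v) (Tb_meas _ _ v) (Tb_nonneg zero_le_one v) v
      (fun u => (Tb_eq (2 * p') 1 v u).le) m hm hfa0 ε hε (hεε.trans hε₀b)
    rw [Tb_self, mul_one, mul_one, ENNReal.ofReal_one, one_mul, ← io_GL (γ := γ) (b := b) hLL₀ hfa' ε] at e1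
    have hu0 : 0 ≤ (max (θ / (nsq m / (1 + nsq v))) ε) ^ (-s) :=
      Real.rpow_nonneg (le_max_of_le_right hε.le) _
    unfold mF
    dsimp only
    rw [sub_sub_cancel, ENNReal.ofReal_add hK₃ (mul_nonneg hc₅.le hu0)]
    rw [ENNReal.ofReal_add hK₃ hKe2] at e1
    calc GMg γ b ε (Tb (2 * p') 1 v) (RegS θ L v) v m + GEg γ b ε (Tb p' 1 v) (RegS θ L v) v m +
          (ENNReal.ofReal K₃ + ENNReal.ofReal (c₅ * (max (θ / (nsq m / (1 + nsq v))) ε) ^ (-s))) ≤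
          GMg γ b ε (Tb (2 * p') 1 v) (RegS θ L v) v m + ENNReal.ofReal Ke2 +
          (ENNReal.ofReal K₃ + ENNReal.ofReal (c₅ * (max (θ / (nsq m / (1 + nsq v))) ε) ^ (-s))) := by
          gcongr
          exact hE2 v m
      _ = GMg γ b ε (Tb (2 * p') 1 v) (RegS θ L v) v m + (ENNReal.ofReal K₃ + ENNReal.ofReal Ke2) +
          ENNReal.ofReal (c₅ * (max (θ / (nsq m / (1 + nsq v))) ε) ^ (-s)) := by
          ring
      _ ≤ _ := e1
  · -- out-type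
    rw [hCb]
    exact io_out H (by dsimp only; omega) hθ hθ4 hL1 hε hvz
  · dsimp only at hsl
    refine (io_outS H (by dsimp only; omega) hθ hθ4 hL1 hδ0 hδb ha₀b hε hvz hsl).trans ?_
    refine ENNReal.ofReal_le_ofReal ?_
    dsimp only
    rw [← hCb]
    have e1 : (3 / 4 : ℝ) ^ (p' - 1) * (24 * Cb) ≤ (3 / 4) ^ N * (24 * Cb) :=
      mul_le_mul_of_nonneg_right hN2 (by positivity)
    have e2 : 0 ≤ (3 / 4 : ℝ) ^ N * (Ke + 1) := by positivity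
    have e3 : (2 / a₀ + 5 * δ ^ 2) * ((8 / θ) * Cb) ≤ q * ((8 / θ) * Cb) :=
      mul_le_mul_of_nonneg_right hη (by positivity)
    nlinarith
  · exact io_outF H hθ hθ4 hL1 hL34 hε hvz hfa

end Pool.Agent.H15.G1
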