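import Pool.Agent.H15.G1.Defs
import Pool.Agent.H67.NW.PertW
import Pool.Agent.H67.NW.MedW

/-!
# Block L (the `L²` inequality): definitions

A collision is a triple `(v,w,σ)`, `y = v' = post v w σ`, `z = w' = post' v w σ`, with the folded kernel `bt` (so `|y-v| ≤ |z-v|`). `T3` is the integral with respect to
`|v-w|^γ bt(cos θ) dv dw dσ`, invariant under `(v,w) ↔ (y,z)` (module Jlem). In Carleman variables `m = v - z`, `h = y - v = hh σ m` (module CarL). `p = 2 p'`, `W = (1+|v|²)^p`.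
-/

set_option autoImplicit false

open MeasureTheory Set Filter Topology Pool.Agent.H25.Kin Pool.Agent.H82.BK Pool.Agent.H82.CM
open Pool.Agent.H48.PL Pool.Agent.H48.PI Pool.Agent.H48.PW Pool.Agent.H82.NT
open scoped ENNReal

namespace Pool.Agent.H15.G1

variable {d : ℕ}

/-- the collision integral; the arguments of `Ψ` are `v, w, v', w'` -/
noncomputable def T3 (γ : ℝ) (b : ℝ → ℝ) (ε : ℝ) (Ψ : Vec d → Vec d → Vec d → Vec d → ℝ≥0∞) : ℝ≥0∞ :=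
  ∫⁻ p, ENNReal.ofReal (len (p.1 - p.2.1) ^ γ * bt b ε (cosTh p.1 p.2.1 p.2.2)) *
    Ψ p.1 p.2.1 (post p.1 p.2.1 p.2.2) (post' p.1 p.2.1 p.2.2) ∂(mu3 d)

/-- joint measurability -/
def Meas4 (Ψ : Vec d → Vec d → Vec d → Vec d → ℝ≥0∞) : Prop :=
  Measurable fun q : Vec d × Vec d × Vec d × Vec d => Ψ q.1 q.2.1 q.2.2.1 q.2.2.2

/-- the weight `(1+|v|²)^p` -/
noncomputable def Wp (p : ℕ) (v : Vec d) : ℝ := (1 + nsq v) ^ p

/-- `g² W` -/
noncomputable def Gs (p : ℕ) (g : Vec d → ℝ) (v : Vec d) : ℝ := g v ^ 2 * Wp p v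

/-- the parameters of block L; `L' ≥ L` is used in `MedR` -/
structure Lp where
  p' : ℕ
  κ : ℝ
  θ : ℝ
  c₅ : ℝ
  KD : ℝ
  K₃ : ℝ
  L : ℝ
  L' : ℝ
  δ : ℝ
  a₀ : ℝ
  τ : ℝ
  K : ℝ

/-- conditions on the parameters -/
structure Lp.Ok (P : Lp) : Prop where
  hp : 1 ≤ P.p'
  hκ : 0 < P.κ
  hθ : 0 < P.θ
  hθ1 : P.θ ≤ 1 / 4
  hc₅ : 0 < P.c₅
  hKD : 0 ≤ P.KD
  hK₃ : 0 ≤ P.K₃
  hL : 1 ≤ P.L
  hLL : P.L ≤ P.L'
  hL34 : 34 ≤ P.L'
  hδ : 0 < P.δ
  hδ1 : P.δ ≤ 1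
  ha₀ : 1 ≤ P.a₀
  hτ : 0 < P.τ
  hτ1 : P.τ ≤ 1 / 4
  hτL : P.τ ^ 2 * (2 + 2 * P.L') ≤ 1 / 8
  hK : 0 ≤ P.K

/-- the small displacements of medium pairs; `z = w'`, `y = v'` -/
def AS (P : Lp) (v z y : Vec d) : Prop := MedR P.δ P.a₀ P.L' v z ∧ y - v ∈ AnS P.τ (v - z)

open Classical in
/-- the weight of the partner in the squares -/
noncomputable def kM (P : Lp) (g1 g2 : Vec d → ℝ) (v z y : Vec d) : ℝ :=
  if (z, y) ∈ RegS P.θ P.L v then g2 z + (if AS P v z y then 0 else g1 z) else 0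

/-- `(1+|v|²)/(1+|z|²)` to the power `p'`, the square root of `W(v)/W(z)` -/
noncomputable def rho (P : Lp) (v z : Vec d) : ℝ := Tb P.p' 1 v z

/-- gain -/
noncomputable def LP (γ : ℝ) (b : ℝ → ℝ) (ε : ℝ) (P : Lp) (g ω : Vec d → ℝ) : ℝ≥0∞ :=
  T3 γ b ε fun v _ y z => ENNReal.ofReal (g z * g y * (g v * Wp (2 * P.p') v * ω v))

/-- loss -/
noncomputable def LLo (γ : ℝ) (b : ℝ → ℝ) (ε : ℝ) (P : Lp) (g ω : Vec d → ℝ) : ℝ≥0∞ :=
  T3 γ b ε fun v w _ _ => ENNReal.ofReal (g w * (Gs (2 * P.p') g v * ω v))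

/-- first part of the squares -/
noncomputable def LA (γ : ℝ) (b : ℝ → ℝ) (ε : ℝ) (P : Lp) (g g1 g2 ω : Vec d → ℝ) : ℝ≥0∞ :=
  T3 γ b ε fun v _ y z => ENNReal.ofReal (kM P g1 g2 v z y *
    (ω v * Gs (2 * P.p') g v * (Wp (2 * P.p') v / Wp (2 * P.p') y)))

/-- second part of the squares -/
noncomputable def LB (γ : ℝ) (b : ℝ → ℝ) (ε : ℝ) (P : Lp) (g g1 g2 ω : Vec d → ℝ) : ℝ≥0∞ :=
  T3 γ b ε fun v _ y z => ENNReal.ofReal (kM P g1 g2 v z y * (ω v * Gs (2 * P.p') g y))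

/-- `(F(v)-F(y))²/W(y)`, `F = g W` -/
noncomputable def dF (p : ℕ) (g : Vec d → ℝ) (v y : Vec d) : ℝ :=
  (g v * Wp p v - g y * Wp p y) ^ 2 / Wp p y

/-- the dissipation -/
noncomputable def LC (γ : ℝ) (b : ℝ → ℝ) (ε : ℝ) (P : Lp) (g g1 g2 ω : Vec d → ℝ) : ℝ≥0∞ :=
  T3 γ b ε fun v _ y z => ENNReal.ofReal (kM P g1 g2 v z y * (ω v * dF (2 * P.p') g v y))

open Classical in
/-- exceptional part, in-type -/
noncomputable def LD1 (γ : ℝ) (b : ℝ → ℝ) (ε : ℝ) (P : Lp) (g ω : Vec d → ℝ) : ℝ≥0∞ :=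
  T3 γ b ε fun v _ y z => if (z, y) ∈ RegS P.θ P.L v then 0 else
    ENNReal.ofReal (g y * (ω v * Gs (2 * P.p') g v * rho P v z))

open Classical in
/-- exceptional part, out-type -/
noncomputable def LD2 (γ : ℝ) (b : ℝ → ℝ) (ε : ℝ) (P : Lp) (g ω : Vec d → ℝ) : ℝ≥0∞ :=
  T3 γ b ε fun v _ y z => if (z, y) ∈ RegS P.θ P.L v then 0 else
    ENNReal.ofReal (g y * (ω v * Gs (2 * P.p') g z * rho P v z))

open Classical in
/-- the products with a bounded medium partner -/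
noncomputable def LPA (γ : ℝ) (b : ℝ → ℝ) (ε : ℝ) (P : Lp) (g g1 ω : Vec d → ℝ) : ℝ≥0∞ :=
  T3 γ b ε fun v _ y z => if (z, y) ∈ RegS P.θ P.L v ∧ AS P v z y then
    ENNReal.ofReal (g1 z * g y * (g v * Wp (2 * P.p') v * ω v)) else 0

/-- the increments of `ω` -/
noncomputable def LCu (γ : ℝ) (b : ℝ → ℝ) (ε : ℝ) (P : Lp) (g ω : Vec d → ℝ) : ℝ≥0∞ :=
  T3 γ b ε fun v w y _ => ENNReal.ofReal (g w * (Gs (2 * P.p') g v * |ω y - ω v|))

/-- `∫∫ g(z) |v-z|^γ ω(v) G(v)² c(v,z)` -/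
noncomputable def LI (γ : ℝ) (p : ℕ) (g k ω : Vec d → ℝ) (c : Vec d → Vec d → ℝ) : ℝ≥0∞ :=
  ∫⁻ v, ENNReal.ofReal (ω v * Gs p g v) * ∫⁻ z, ENNReal.ofReal (k z * len (v - z) ^ γ * c v z)

open Classical in
/-- the barrier without the small displacements of medium pairs -/
noncomputable def TbA (P : Lp) (v m u : Vec d) : ℝ :=
  if u - v ∈ AnS P.τ m then 0 else Tb (2 * P.p') 1 v u

open Classical in
/-- out-type exceptional angular integral, `v` the variable of `G²`, `z` the partner -/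
noncomputable def ThD (b : ℝ → ℝ) (ε : ℝ) (P : Lp) (v z : Vec d) : ℝ≥0∞ :=
  ∫⁻ σ, (if (v, z) ∈ RegS P.θ P.L (post z v σ) then 0 else
    ENNReal.ofReal (bt b ε (cosTh z v σ) * rho P (post z v σ) v)) ∂(surf d)

/-- the margin for fast partners -/
noncomputable def mF (P : Lp) (s ε : ℝ) (v z : Vec d) : ℝ :=
  (max (P.θ / (nsq (v - z) / (1 + nsq v))) ε) ^ (-s)

/-- fast partners -/
def FastR (P : Lp) (v z : Vec d) : Prop := P.L' * (1 + nsq v) < nsq z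

/-! ### conventions of the modules in G1/L -/

/-- the data -/
structure Dat (g g1 ω : Vec d → ℝ) : Prop where
  nice : Nice g
  g0 : ∀ u, 0 ≤ g u
  m1 : Measurable g1
  g10 : ∀ u, 0 ≤ g1 u
  le : ∀ u, g1 u ≤ g u
  ωc : Continuous ω
  ωl : ∀ v, 1 / 2 ≤ ω v
  ωu : ∀ v, ω v ≤ 2

/-- `g - g₁` -/
def gR (g g1 : Vec d → ℝ) (u : Vec d) : ℝ := g u - g1 u

/-- the relations between the four velocities, folded kernel -/
structure Geo (v w y z : Vec d) : Prop where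
  ne : v ≠ w
  sum : v + w = y + z
  en : nsq v + nsq w = nsq y + nsq z
  perp : dot (y - v) (v - z) = 0
  le : nsq (y - v) ≤ nsq (v - z)
  tot : nsq (y - v) + nsq (v - z) = nsq (v - w)

open Classical in
/-- slow partners -/
noncomputable def cS (P : Lp) (v z : Vec d) : ℝ := if SlowR P.δ P.a₀ v z then 1 else 0

open Classical in
/-- medium partners -/
noncomputable def cM (P : Lp) (v z : Vec d) : ℝ := if MedR P.δ P.a₀ P.L' v z then 1 else 0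

open Classical in
/-- fast partners -/
noncomputable def cF (P : Lp) (v z : Vec d) : ℝ := if FastR P v z then 1 else 0

/-- `1 + mF 1_fast` -/
noncomputable def cB (P : Lp) (s ε : ℝ) (v z : Vec d) : ℝ := 1 + mF P s ε v z * cF P v z

open Classical in
/-- comparable and not thin: `t⟨v⟩ ≤ ⟨z⟩`, `t|v-z| ≤ |v_e-z_e|` -/
noncomputable def cN (e : Fin d) (t : ℝ) (v z : Vec d) : ℝ :=
  if t * jb v ≤ jb z ∧ t * len (v - z) ≤ |v e - z e| then 1 else 0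

/-- `max(ε, min(1, ρ²/|v-w|²))^(-s)` -/
noncomputable def qC (s ε ρ : ℝ) (v w : Vec d) : ℝ := max ε (min 1 (ρ ^ 2 / nsq (v - w))) ^ (-s)

/-- `|v-u| < c min(|v-z|, ⟨v⟩)` -/
def HR (c : ℝ) (u v z : Vec d) : Prop := len (v - u) < c * min (len (v - z)) (jb v)

open Classical in
/-- the Hardy region above the cut-off -/
noncomputable def cH (s ε c : ℝ) (u v z : Vec d) : ℝ :=
  if HR c u v z ∧ ε * nsq (v - z) ≤ nsq (v - u) then qC s ε (len (v - u)) v z else 0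

open Classical in
/-- pairs below the cut-off -/
noncomputable def cE (s ε : ℝ) (u v z : Vec d) : ℝ :=
  if nsq (v - u) < ε * nsq (v - z) then ε ^ (-s) else 0

open Classical in
/-- the Hardy region -/
noncomputable def cG (s ε c : ℝ) (u v z : Vec d) : ℝ :=
  if HR c u v z then qC s ε (len (v - u)) v z else 0

/-- collisions which return to `u` -/
def RetS (Λ c : ℝ) (u v z y : Vec d) : Prop :=
  Λ * len (y - u) ≤ len (y - v) ∧ len (y - v) ≤ 6 * Λ * len (y - u) ∧ len (y - u) < c * min (len (v - z)) (jb v)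

open Classical in
/-- the returned mass -/
noncomputable def LR (γ : ℝ) (b : ℝ → ℝ) (ε : ℝ) (P : Lp) (g ω : Vec d → ℝ) (Λ c : ℝ) (u : Vec d) : ℝ≥0∞ :=
  T3 γ b ε fun v _ y z => if RetS Λ c u v z y then ENNReal.ofReal (g z * (ω v * Gs (2 * P.p') g v)) else 0

/-- the increments of `ω` from the cusp at `u` -/
noncomputable def LU (γ : ℝ) (b : ℝ → ℝ) (ε : ℝ) (P : Lp) (g : Vec d → ℝ) (u : Vec d) : ℝ≥0∞ :=
  T3 γ b ε fun v w y _ => ENNReal.ofReal (g w * (Gs (2 * P.p') g v *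
    (min 1 (len (y - v) / len (v - u)) + min 1 (len (y - v) / jb v))))

/-- `∫∫ g g |v-w|^γ` -/
noncomputable def DD (γ : ℝ) (g : Vec d → ℝ) : ℝ≥0∞ :=
  ∫⁻ v : Vec d, ∫⁻ w : Vec d, ENNReal.ofReal (g v * g w * len (v - w) ^ γ)

end Pool.Agent.H15.G1
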